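import Pool.Agent.Gen.TY.FLG.F0
import Pool.Agent.Gen.TY.FLG.F1
import Pool.Agent.Gen.TY.FLG.F2
import Pool.Agent.Gen.TY.FLG.F3
import Pool.Agent.Helper7.TB.RowChk
import Pool.Agent.Helper16.TY.RunFin

/-!
MP_8ee768_co, project TH-Y', stage TB2: every flag (class representative, point) with a pair link
with more than 19 blocks is in the rows of helper7.
-/

set_option autoImplicit false

namespace Pool.Agent.Gen.TY.FLG

open Finset
open Pool.Agent.Helper97.CV
open Pool.Agent.Helper79.CV
open Pool.Agent.Helper7.TY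
open Pool.Agent.Helper7.TB (typ nl cls laneF lane laneF_fld lane_eq)
open Pool.Agent.Helper39.TY

/-- all classes -/
theorem flAll : FlR 0 24746 := F0.fl.app (F1.fl.app (F2.fl.app F3.fl))

/-- all flags, with the class numbers, lanes by `laneF` -/
theorem flagL_F : FlagL Pool.Agent.Helper16.TY.reps 5074 typ
    (fun t => LSet (nl t) (laneF t) (cls t)) := flagL_of flAll

theorem lset_lane {t : ℕ} (ht : t < 5074) :
    LSet (nl t) (laneF t) (cls t) ⊆ LSet (nl t) (lane t) (cls t) := by
  rintro q ⟨i, hi, rfl⟩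
  exact ⟨i, hi, by rw [laneF_fld ht hi, lane_eq]⟩

/-- all flags, with the class numbers -/
theorem flagL : FlagL Pool.Agent.Helper16.TY.reps 5074 typ
    (fun t => LSet (nl t) (lane t) (cls t)) := by
  intro j r hr p hp hc
  obtain ⟨t, ht, ψ, h1, h2, h3, h4⟩ := flagL_F j r hr p hp hc
  exact ⟨t, ht, ψ, h1, h2, h3, lset_lane ht.2 h4⟩

/-- all flags, lanes by `laneF` -/
theorem flagOK_F : FlagOK Pool.Agent.Helper16.TY.reps 5074 typ
    (fun t => {E | ∃ i < nl t, E = fam 11 4 (laneF t i)}) := flagL_F.flagOK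

/-- **all flags** -/
theorem flagOK : FlagOK Pool.Agent.Helper16.TY.reps 5074 typ
    (fun t => {E | ∃ i < nl t, E = fam 11 4 (lane t i)}) := flagL.flagOK

end Pool.Agent.Gen.TY.FLG
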